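import Mathlib

/-!
# Lists of divisors with signs
-/

set_option autoImplicit false

namespace Pool.Agent.CYE

/-- The divisors of `n`, largest first, with the sign of `μ (n / d)`. -/
noncomputable def dl (n : ℕ) : List (ℕ × Bool) :=
  (n.divisors.sort (fun a b => b ≤ a)).map
    (fun d => (d, decide (ArithmeticFunction.moebius (n / d) = 1)))

/-- The sign of a Boolean, as an integer. -/
def si (b : Bool) : ℤ := if b then 1 else -1

/-- The sum of the signs. -/
def cs : List (ℕ × Bool) → ℤ
  | [] => 0
  | (a :: l) => si a.2 + cs l

/-- The number of places where the sum of the signs vanishes between two equal signs. -/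
def chC : List (ℕ × Bool) → ℕ
  | [] => 0
  | [_] => 0
  | (a :: b :: l) => chC (b :: l) + if a.2 = b.2 ∧ cs (b :: l) = 0 then 1 else 0

/-- The sum of the divisors in the list. -/
def su : List (ℕ × Bool) → ℕ
  | [] => 0
  | (a :: l) => a.1 + su l

/-- Every member is positive and at least twice the sum of the later ones. -/
def Lac : List (ℕ × Bool) → Prop
  | [] => True
  | (a :: l) => (0 < a.1 ∧ 2 * su l ≤ a.1) ∧ Lac l

end Pool.Agent.CYE
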