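import Pool.Agent.CYD.Main
import Pool.Agent.CYE.Base

/-!
MP_1d6ef7_nt: the negative critical points for lacunary divisors.
-/

set_option autoImplicit false

namespace Pool.Agent.CYE

open Polynomial Pool.Agent.CYD

namespace Neg_

/-- The sign of a divisor. -/
noncomputable def sgn (n d : ℕ) : Bool := decide (ArithmeticFunction.moebius (n / d) = 1)

lemma dl_eq (n : ℕ) :
    dl n = (n.divisors.sort (fun a b => b ≤ a)).map (fun d => (d, sgn n d)) := rfl

lemma mem_dl (n : ℕ) (a : ℕ × Bool) : a ∈ dl n ↔ a.1 ∈ n.divisors ∧ a.2 = sgn n a.1 := by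
  rw [dl_eq, List.mem_map]
  constructor
  · rintro ⟨d, hd, rfl⟩
    exact ⟨(Finset.mem_sort _).1 hd, rfl⟩
  · rintro ⟨h1, h2⟩
    exact ⟨a.1, (Finset.mem_sort _).2 h1, by rw [← h2]⟩

lemma nodup_dl (n : ℕ) : (dl n).Nodup := by
  rw [dl_eq]
  refine List.Nodup.map (fun x y h => ?_) (Finset.sort_nodup _ _)
  exact (Prod.ext_iff.1 h).1

lemma A_perm (q : ℕ) {l l' : List (ℕ × Bool)} (h : l.Perm l') : A q l = A q l' := by
  induction h with
  | nil => rfl
  | cons a _ ih => simp only [A, ih]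
  | swap a b l =>
    simp only [A]
    split_ifs <;> ring
  | trans _ _ h1 h2 => rw [h1, h2]

lemma B_perm (q : ℕ) {l l' : List (ℕ × Bool)} (h : l.Perm l') : B q l = B q l' := by
  induction h with
  | nil => rfl
  | cons a _ ih => simp only [B, ih]
  | swap a b l =>
    simp only [B]
    split_ifs <;> ring
  | trans _ _ h1 h2 => rw [h1, h2]

lemma sgn_mul {n p d : ℕ} (hp : p.Prime) (hd : d ∣ n) : sgn (n * p) (p * d) = sgn n d := by
  unfold sgn
  rw [mul_comm n p, Nat.mul_div_mul_left _ _ hp.pos]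

lemma sgn_neg {n p d : ℕ} (hp : p.Prime) (hn : Squarefree n) (hpn : ¬ p ∣ n) (hd : d ∣ n) :
    sgn (n * p) d = !sgn n d := by
  unfold sgn
  have h1 : n * p / d = (n / d) * p := Nat.mul_div_right_comm hd p |>.trans rfl
  have hsq : Squarefree (n / d) := hn.squarefree_of_dvd (Nat.div_dvd_of_dvd hd)
  have hcop : Nat.Coprime (n / d) p := by
    rw [Nat.coprime_comm, hp.coprime_iff_not_dvd]
    exact fun h => hpn (h.trans (Nat.div_dvd_of_dvd hd))
  have h2 : ArithmeticFunction.moebius (n * p / d) =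
      - ArithmeticFunction.moebius (n / d) := by
    rw [h1, ArithmeticFunction.isMultiplicative_moebius.map_mul_of_coprime hcop,
      ArithmeticFunction.moebius_apply_prime hp]
    ring
  rw [h2]
  have h3 : ArithmeticFunction.moebius (n / d) = 1 ∨
      ArithmeticFunction.moebius (n / d) = -1 := by
    have := ArithmeticFunction.moebius_ne_zero_iff_squarefree.2 hsq
    exact ArithmeticFunction.moebius_ne_zero_iff_eq_or.1 this
  rcases h3 with h | h <;> rw [h] <;> decide

lemma dl_step {n p : ℕ} (hp : p.Prime) (hn : Squarefree n) (hpn : ¬ p ∣ n) :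
    (dl (n * p)).Perm (mulL p (dl n) ++ flL (dl n)) := by
  have hn0 : n ≠ 0 := hn.ne_zero
  have hm : ∀ a : ℕ × Bool, a ∈ mulL p (dl n) ↔ ∃ d, d ∣ n ∧ a = (p * d, sgn n d) := by
    intro a
    unfold mulL
    rw [List.mem_map]
    constructor
    · rintro ⟨c, hc, rfl⟩
      rw [mem_dl] at hc
      exact ⟨c.1, Nat.dvd_of_mem_divisors hc.1, by rw [hc.2]⟩
    · rintro ⟨d, hd, rfl⟩
      exact ⟨(d, sgn n d), (mem_dl _ _).2 ⟨Nat.mem_divisors.2 ⟨hd, hn0⟩, rfl⟩, rfl⟩
  have hf : ∀ a : ℕ × Bool, a ∈ flL (dl n) ↔ ∃ d, d ∣ n ∧ a = (d, !sgn n d) := by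
    intro a
    unfold flL
    rw [List.mem_map]
    constructor
    · rintro ⟨c, hc, rfl⟩
      rw [mem_dl] at hc
      exact ⟨c.1, Nat.dvd_of_mem_divisors hc.1, by rw [hc.2]⟩
    · rintro ⟨d, hd, rfl⟩
      exact ⟨(d, sgn n d), (mem_dl _ _).2 ⟨Nat.mem_divisors.2 ⟨hd, hn0⟩, rfl⟩, rfl⟩
  have hnd : (mulL p (dl n) ++ flL (dl n)).Nodup := by
    refine List.Nodup.append ?_ ?_ ?_
    · refine List.Nodup.map (fun x y h => ?_) (nodup_dl n)
      have h1 := (Prod.ext_iff.1 h).1
      have h2 := (Prod.ext_iff.1 h).2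
      exact Prod.ext (Nat.eq_of_mul_eq_mul_left hp.pos h1) h2
    · refine List.Nodup.map (fun x y h => ?_) (nodup_dl n)
      have h1 := (Prod.ext_iff.1 h).1
      have h2 := (Prod.ext_iff.1 h).2
      exact Prod.ext h1 (by simpa using h2)
    · intro a h1 h2
      obtain ⟨d, hd, rfl⟩ := (hm a).1 h1
      obtain ⟨d', hd', h⟩ := (hf _).1 h2
      have h3 : p * d = d' := (Prod.ext_iff.1 h).1
      exact hpn ((Dvd.intro d h3).trans hd')
  rw [List.perm_ext_iff_of_nodup (nodup_dl _) hnd]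
  intro a
  rw [mem_dl, List.mem_append, hm, hf, Nat.mem_divisors]
  constructor
  · rintro ⟨⟨h1, -⟩, h2⟩
    by_cases hpa : p ∣ a.1
    · left
      obtain ⟨d, hd⟩ := hpa
      have hdn : d ∣ n := by
        rw [hd, mul_comm n p] at h1
        exact Nat.dvd_of_mul_dvd_mul_left hp.pos h1
      refine ⟨d, hdn, Prod.ext hd ?_⟩
      rw [h2, hd, sgn_mul hp hdn]
    · right
      have hcop : Nat.Coprime a.1 p := by
        rw [Nat.coprime_comm, hp.coprime_iff_not_dvd]
        exact hpa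
      have hdn : a.1 ∣ n := hcop.dvd_of_dvd_mul_right h1
      refine ⟨a.1, hdn, Prod.ext rfl ?_⟩
      rw [h2, sgn_neg hp hn hpn hdn]
  · rintro (⟨d, hd, rfl⟩ | ⟨d, hd, rfl⟩)
    · refine ⟨⟨?_, mul_ne_zero hn0 hp.ne_zero⟩, (sgn_mul hp hd).symm⟩
      rw [mul_comm n p]
      exact Nat.mul_dvd_mul_left p hd
    · exact ⟨⟨hd.mul_right p, mul_ne_zero hn0 hp.ne_zero⟩, (sgn_neg hp hn hpn hd).symm⟩

lemma sqf (S : Finset ℕ) (hS : ∀ p ∈ S, p.Prime) : Squarefree (∏ p ∈ S, p) := by
  induction S using Finset.induction_on with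
  | empty => simp
  | insert a s ha ih =>
    rw [Finset.prod_insert ha]
    have hap := hS a (Finset.mem_insert_self a s)
    have h2 : ¬ a ∣ ∏ p ∈ s, p := by
      intro h
      obtain ⟨p, hp, hd⟩ := (Prime.dvd_finsetProd_iff hap.prime _).1 h
      have := (Nat.prime_dvd_prime_iff_eq hap (hS p (Finset.mem_insert_of_mem hp))).1 hd
      exact ha (this ▸ hp)
    rw [Nat.squarefree_mul_iff]
    exact ⟨(Nat.Prime.coprime_iff_not_dvd hap).2 h2, hap.squarefree,
      ih fun p hp => hS p (Finset.mem_insert_of_mem hp)⟩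

lemma dl_one : dl 1 = [(1, true)] := by
  rw [dl_eq, Nat.divisors_one, Finset.sort_singleton]
  simp [sgn]

lemma rel (S : Finset ℕ) (hS : ∀ p ∈ S, p.Prime ∧ p ≠ 2) :
    ∃ ε : ℝ, ε ≠ 0 ∧ (cyclotomic (∏ p ∈ S, p) ℝ).comp (-X) * B 2 (dl (∏ p ∈ S, p)) =
      C ε * A 2 (dl (∏ p ∈ S, p)) := by
  induction S using Finset.induction_on with
  | empty =>
    refine ⟨-1, by norm_num, ?_⟩
    rw [Finset.prod_empty, dl_one]
    simp only [A, B, cyclotomic_one, G, Finset.sum_range_succ, Finset.sum_range_zero, zero_add,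
      zero_mul, pow_zero, one_mul, pow_one, sub_comp, X_comp, one_comp, map_neg, map_one,
      if_true, mul_one]
    ring
  | insert a s ha ih =>
    obtain ⟨ε, hε, hrel⟩ := ih fun p hp => hS p (Finset.mem_insert_of_mem hp)
    obtain ⟨hap, ha2⟩ := hS a (Finset.mem_insert_self a s)
    have hsq := sqf s fun p hp => (hS p (Finset.mem_insert_of_mem hp)).1
    have hnd : ¬ a ∣ ∏ p ∈ s, p := by
      intro h
      obtain ⟨p, hp, hd⟩ := (Prime.dvd_finsetProd_iff hap.prime _).1 h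
      have := (Nat.prime_dvd_prime_iff_eq hap (hS p (Finset.mem_insert_of_mem hp)).1).1 hd
      exact ha (this ▸ hp)
    have hodd : Odd a := hap.odd_of_ne_two ha2
    have hperm := dl_step hap hsq hnd
    refine ⟨1, one_ne_zero, ?_⟩
    rw [Finset.prod_insert ha, mul_comm a, A_perm 2 hperm, B_perm 2 hperm, A_append, B_append,
      A_mulL, B_mulL, A_flL, B_flL]
    have hs : (cyclotomic ((∏ p ∈ s, p) * a) ℝ).comp (-X) *
        (cyclotomic (∏ p ∈ s, p) ℝ).comp (-X) =
        expand ℝ a ((cyclotomic (∏ p ∈ s, p) ℝ).comp (-X)) := by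
      rw [← mul_comp, ← cyclotomic_expand_eq_cyclotomic_mul hap hnd ℝ, expand_comp_neg hodd]
    have hCε : (C ε : ℝ[X]) ≠ 0 := by simpa using hε
    apply mul_left_cancel₀ hCε
    set f := (cyclotomic ((∏ p ∈ s, p) * a) ℝ).comp (-X) with hf
    set g := (cyclotomic (∏ p ∈ s, p) ℝ).comp (-X) with hg
    set L := dl (∏ p ∈ s, p) with hL
    calc C ε * (f * (expand ℝ a (B 2 L) * A 2 L))
        = f * expand ℝ a (B 2 L) * (C ε * A 2 L) := by ring
      _ = (f * g) * expand ℝ a (B 2 L) * B 2 L := by rw [← hrel]; ring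
      _ = expand ℝ a (g * B 2 L) * B 2 L := by rw [hs, map_mul]
      _ = C ε * (C 1 * (expand ℝ a (A 2 L) * B 2 L)) := by
          rw [hrel, map_mul, expand_C, C_1, one_mul]; ring

lemma Sm_map (g : ℕ → Bool) : ∀ l : List ℕ, Sm (l.map fun d => (d, g d)) = l.sum
  | [] => rfl
  | (a :: l) => by
      rw [List.map_cons, Sm, Sm_map g l, List.sum_cons]

lemma Gd_map (D : Finset ℕ) (hD : ∀ d ∈ D, ∑ e ∈ D with e < d, e < d) (g : ℕ → Bool) :
    ∀ l : List ℕ, l.Pairwise (· > ·) → (∀ x ∈ l, x ∈ D) → Gd 2 (l.map fun d => (d, g d))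
  | [], _, _ => trivial
  | (a :: l), h, hl => by
      rw [List.pairwise_cons] at h
      refine ⟨?_, Gd_map D hD g l h.2 fun x hx => hl x (List.mem_cons_of_mem _ hx)⟩
      have hnd : l.Nodup := h.2.imp fun h => ne_of_gt h
      change (2 - 1) * Sm (l.map fun d => (d, g d)) < a
      have e : (2 - 1) * l.sum = ∑ x ∈ l.toFinset, x := by
        rw [List.sum_toFinset _ hnd]
        simp
      rw [Sm_map, e]
      refine lt_of_le_of_lt (Finset.sum_le_sum_of_subset fun x hx => ?_)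
        (hD a (hl a List.mem_cons_self))
      rw [List.mem_toFinset] at hx
      rw [Finset.mem_filter]
      exact ⟨hl x (List.mem_cons_of_mem _ hx), h.1 x hx⟩

lemma dl_last {n : ℕ} (hn : n ≠ 0) : ∃ l b, dl n = l ++ [(1, b)] := by
  set L := n.divisors.sort (fun a b => b ≤ a) with hL
  have hne : L ≠ [] := by
    intro h
    have : 1 ∈ L := (Finset.mem_sort _).2 (Nat.one_mem_divisors.2 hn)
    rw [h] at this
    exact absurd this (by simp)
  have hlast : L.getLast hne = 1 := by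
    have h1 : 1 ∈ L := (Finset.mem_sort _).2 (Nat.one_mem_divisors.2 hn)
    have h2 : L.getLast hne ∈ n.divisors := (Finset.mem_sort _).1 (List.getLast_mem hne)
    have h3 : L.Pairwise (fun a b => b ≤ a) := Finset.pairwise_sort _ _
    rw [← List.dropLast_append_getLast hne] at h1 h3
    have h4 : L.getLast hne ≤ 1 := by
      rcases List.mem_append.1 h1 with h | h
      · exact (List.pairwise_append.1 h3).2.2 1 h _ (by simp)
      · rw [List.mem_singleton] at h
        exact h.ge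
    have h5 := Nat.pos_of_mem_divisors h2
    omega
  refine ⟨L.dropLast.map fun d => (d, sgn n d), sgn n 1, ?_⟩
  rw [dl_eq, ← hL]
  nth_rewrite 1 [← List.dropLast_append_getLast hne]
  rw [List.map_append, hlast]
  rfl

end Neg_

open Neg_ in
/-- The negative critical points. -/
theorem neg_lac (S : Finset ℕ) (hS : ∀ p ∈ S, p.Prime ∧ p ≠ 2) (_hne : S.Nonempty)
    (hlac : ∀ d ∈ (∏ p ∈ S, p).divisors,
      2 * (∑ e ∈ (∏ p ∈ S, p).divisors with e < d, e) ≤ d) :
    (derivative (cyclotomic (∏ p ∈ S, p) ℝ)).roots.countP (· < 0) ≤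
      chB ((dl (∏ p ∈ S, p)).map Prod.snd) := by
  have hsq := sqf S fun p hp => (hS p hp).1
  obtain ⟨l, b, hl⟩ := dl_last hsq.ne_zero
  obtain ⟨ε, hε, hrel⟩ := rel S hS
  have hG : Gd 2 (dl (∏ p ∈ S, p)) := by
    rw [dl_eq]
    refine Gd_map (∏ p ∈ S, p).divisors (fun d hd => ?_) _ _ ?_ fun x hx =>
      (Finset.mem_sort _).1 hx
    · have h1 := hlac d hd
      have h2 := Nat.pos_of_mem_divisors hd
      omega
    · have h1 : (List.Pairwise (fun a b => b ≤ a)
          ((∏ p ∈ S, p).divisors.sort (fun a b => b ≤ a))) := Finset.pairwise_sort _ _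
      have h2 : ((∏ p ∈ S, p).divisors.sort (fun a b => b ≤ a)).Nodup := Finset.sort_nodup _ _
      exact h1.imp₂ (fun a b h h' => lt_of_le_of_ne h (Ne.symm h')) h2
  rw [hl] at hG hrel ⊢
  obtain ⟨h1, h2, h3⟩ := roots_bound le_rfl _ l b hG ε hε hrel
  have hd : derivative ((cyclotomic (∏ p ∈ S, p) ℝ).comp (-X)) =
      C (-1) * (derivative (cyclotomic (∏ p ∈ S, p) ℝ)).comp (-X) := by
    rw [derivative_comp]; simp
  rw [hd] at h3
  rw [roots_C_mul _ (by norm_num : (-1 : ℝ) ≠ 0), roots_comp_neg_X, Multiset.countP_map] at h3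
  refine le_trans (le_of_eq ?_) h3
  rw [Multiset.countP_eq_card_filter]
  congr 1
  refine Multiset.filter_congr fun x _ => ?_
  simp

end Pool.Agent.CYE
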