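import Pool.Agent.CYE.Fin
import Pool.Agent.CYE.Neg
import Pool.Agent.CycCrit.Lower

/-!
# The number of real critical points for lacunary divisors
-/

set_option autoImplicit false

namespace Pool.Agent.CYE

open Polynomial

theorem chC_add_chB : ∀ (l : List (ℕ × Bool)) (a : ℕ × Bool),
    chC (a :: l) + Pool.Agent.CYD.chB ((a :: l).map Prod.snd) ≤ l.length
  | [], a => by simp [chC, Pool.Agent.CYD.chB]
  | (b :: l), a => by
      have h := chC_add_chB l b
      simp only [List.map_cons] at h ⊢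
      simp only [chC, Pool.Agent.CYD.chB, List.length_cons]
      by_cases h1 : a.2 = b.2
      · rw [if_pos h1]
        split_ifs <;> omega
      · rw [if_neg h1, if_neg (fun h2 => h1 h2.1)]
        omega

theorem su_map (g : ℕ → Bool) : ∀ l : List ℕ, su (l.map fun d => (d, g d)) = l.sum
  | [] => rfl
  | (a :: l) => by
      rw [List.map_cons, su, su_map g l, List.sum_cons]

theorem Lac_map (D : Finset ℕ) (hD : ∀ d ∈ D, 0 < d ∧ 2 * ∑ e ∈ D with e < d, e ≤ d)
    (g : ℕ → Bool) : ∀ l : List ℕ, l.Pairwise (· > ·) → (∀ x ∈ l, x ∈ D) →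
    Lac (l.map fun d => (d, g d))
  | [], _, _ => trivial
  | (a :: l), h, hl => by
      rw [List.pairwise_cons] at h
      have ha := hD a (hl a List.mem_cons_self)
      refine ⟨⟨ha.1, ?_⟩, Lac_map D hD g l h.2 fun x hx => hl x (List.mem_cons_of_mem _ hx)⟩
      have hnd : l.Nodup := h.2.imp fun h => ne_of_gt h
      change 2 * su (l.map fun d => (d, g d)) ≤ a
      have e : l.sum = ∑ x ∈ l.toFinset, x := by
        rw [List.sum_toFinset _ hnd]
        simp
      rw [su_map, e]
      refine le_trans (Nat.mul_le_mul_left 2 (Finset.sum_le_sum_of_subset fun x hx => ?_)) ha.2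
      rw [List.mem_toFinset] at hx
      rw [Finset.mem_filter]
      exact ⟨hl x (List.mem_cons_of_mem _ hx), h.1 x hx⟩

theorem Lac_dl (n : ℕ) (h : ∀ d ∈ n.divisors, 2 * ∑ e ∈ n.divisors with e < d, e ≤ d) :
    Lac (dl n) := by
  rw [Neg_.dl_eq]
  refine Lac_map n.divisors (fun d hd => ⟨Nat.pos_of_mem_divisors hd, h d hd⟩) _ _ ?_
    fun x hx => (Finset.mem_sort _).1 hx
  have h1 : (List.Pairwise (fun a b => b ≤ a) (n.divisors.sort (fun a b => b ≤ a))) :=
    Finset.pairwise_sort _ _
  have h2 : (n.divisors.sort (fun a b => b ≤ a)).Nodup := Finset.sort_nodup _ _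
  exact h1.imp₂ (fun a b h h' => lt_of_le_of_ne h (Ne.symm h')) h2

theorem card_div (S : Finset ℕ) (hS : ∀ p ∈ S, p.Prime) :
    (∏ p ∈ S, p).divisors.card = 2 ^ S.card := by
  induction S using Finset.induction_on with
  | empty => simp
  | insert a s ha ih =>
    have hap := hS a (Finset.mem_insert_self a s)
    have h2 : ¬ a ∣ ∏ p ∈ s, p := by
      intro h
      obtain ⟨p, hp, hd⟩ := (Prime.dvd_finsetProd_iff hap.prime _).1 h
      have := (Nat.prime_dvd_prime_iff_eq hap (hS p (Finset.mem_insert_of_mem hp))).1 hd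
      exact ha (this ▸ hp)
    rw [Finset.prod_insert ha, Nat.Coprime.card_divisors_mul
      ((Nat.Prime.coprime_iff_not_dvd hap).2 h2),
      ih fun p hp => hS p (Finset.mem_insert_of_mem hp), Finset.card_insert_of_notMem ha,
      hap.divisors, Finset.card_pair hap.one_lt.ne, pow_succ]
    ring

/-- Products of odd primes with lacunary divisors. -/
theorem lac (S : Finset ℕ) (hS : ∀ p ∈ S, p.Prime ∧ p ≠ 2) (hne : S.Nonempty)
    (hlac : ∀ d ∈ (∏ p ∈ S, p).divisors,
      2 * (∑ e ∈ (∏ p ∈ S, p).divisors with e < d, e) ≤ d) :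
    2 * S.card - 1 ≤ (derivative (cyclotomic (∏ p ∈ S, p) ℝ)).roots.card ∧
    (derivative (cyclotomic (∏ p ∈ S, p) ℝ)).roots.card ≤ 2 ^ S.card - 1 := by
  refine ⟨Pool.Agent.CycCrit.main_total S hS hne, ?_⟩
  obtain ⟨hlt, h0⟩ := Pool.Agent.CycCrit.der_zero_prod S (fun p hp => (hS p hp).1) hne
  have h1 : derivative (cyclotomic (∏ p ∈ S, p) ℝ) ≠ 0 := by
    intro h; rw [h] at h0; simp at h0
  have hsq := Neg_.sqf S fun p hp => (hS p hp).1
  have hL := Lac_dl _ hlac
  have hn := neg_lac S hS hne hlac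
  have hp := pos_count hsq hlt hL h1
  have hodd : Odd (∏ p ∈ S, p) := by
    apply Finset.prod_induction _ Odd (fun a b ha hb => ha.mul hb) odd_one
    intro p hp
    exact (hS p hp).1.odd_of_ne_two (hS p hp).2
  have h2 : 2 < ∏ p ∈ S, p := by
    rcases hodd with ⟨m, hm⟩
    omega
  rw [Multiset.countP_eq_card_filter] at hn hp
  have h5 : (derivative (cyclotomic (∏ p ∈ S, p) ℝ)).roots.card =
      ((derivative (cyclotomic (∏ p ∈ S, p) ℝ)).roots.filter (· < 0)).card +
      ((derivative (cyclotomic (∏ p ∈ S, p) ℝ)).roots.filter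
        (fun x => 0 < x ∧ x < 1)).card := by
    conv_lhs => rw [← Multiset.filter_add_not (· < 0)
      (derivative (cyclotomic (∏ p ∈ S, p) ℝ)).roots, Multiset.card_add]
    congr 2
    refine Multiset.filter_congr fun x hx => ?_
    constructor
    · intro h
      refine ⟨?_, (Pool.Agent.CycCrit.root_mem_odd h2 hodd ((mem_roots h1).1 hx)).2⟩
      rcases lt_or_eq_of_le (not_lt.1 h) with h | h
      · exact h
      · exfalso
        rw [← h] at hx
        exact h0 ((mem_roots h1).1 hx)
    · intro h; exact not_lt.2 h.1.le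
  rw [h5]
  obtain ⟨a, l, hal⟩ := dl_ne (show (∏ p ∈ S, p) ≠ 0 by omega)
  have h6 := chC_add_chB l a
  rw [← hal] at h6
  have h7 : (dl (∏ p ∈ S, p)).length = 2 ^ S.card := by
    rw [Neg_.dl_eq, List.length_map, Finset.length_sort, card_div S fun p hp => (hS p hp).1]
  rw [hal, List.length_cons] at h7
  omega

end Pool.Agent.CYE
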