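import Pool.Agent.CYE.Neg

/-!
MP_1d6ef7_nt: the two sides together.
-/

set_option autoImplicit false

namespace Pool.Agent.CYE

open Pool.Agent.CYD

theorem chB_add_chC : ∀ l : List (ℕ × Bool), chB (l.map Prod.snd) + chC l ≤ l.length - 1
  | [] => by simp [chB, chC]
  | [_] => by simp [chB, chC]
  | (a :: b :: l) => by
      have h := chB_add_chC (b :: l)
      simp only [List.map_cons, chB, chC, List.length_cons] at h ⊢
      by_cases hab : a.2 = b.2
      · rw [if_pos hab]
        split_ifs <;> omega
      · rw [if_neg hab, if_neg (fun h => hab h.1)]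
        omega

theorem length_dl (S : Finset ℕ) (hS : ∀ p ∈ S, p.Prime) :
    (dl (∏ p ∈ S, p)).length = 2 ^ S.card := by
  induction S using Finset.induction_on with
  | empty =>
    rw [Finset.prod_empty, Neg_.dl_one]
    rfl
  | insert a s ha ih =>
    have hs : ∀ p ∈ s, p.Prime := fun p hp => hS p (Finset.mem_insert_of_mem hp)
    have hap := hS a (Finset.mem_insert_self a s)
    have hsq := Neg_.sqf s hs
    have hnd : ¬ a ∣ ∏ p ∈ s, p := by
      intro h
      obtain ⟨p, hp, hd⟩ := (Prime.dvd_finsetProd_iff hap.prime _).1 h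
      have := (Nat.prime_dvd_prime_iff_eq hap (hs p hp)).1 hd
      exact ha (this ▸ hp)
    rw [Finset.prod_insert ha, mul_comm a, (Neg_.dl_step hap hsq hnd).length_eq,
      Finset.card_insert_of_notMem ha, List.length_append, mulL, flL, List.length_map,
      List.length_map, ih hs]
    ring

end Pool.Agent.CYE
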