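import Pool.Agent.CYE.Pos
import Pool.Agent.CycCrit.AltSeq

/-!
# Ramanujan sums and the positive critical points
-/

set_option autoImplicit false

namespace Pool.Agent.CYE

open Polynomial
open Pool.Agent.CycCrit (psum Alt)

theorem alt_psum {c : ℕ → ℝ} {v : ℕ} (hA : Alt (psum c) v) : Alt c v := by
  obtain ⟨m, s, hm, hs⟩ := hA
  have key : ∀ i, i < v → ∃ j, m i < j ∧ j ≤ m (i + 1) ∧ 0 < s * (-1) ^ (i + 1) * c j := by
    intro i hi
    have hlt := hm i hi
    have e : ∑ j ∈ Finset.Ico (m i + 1) (m (i + 1) + 1), c j * (1 : ℝ) ^ j =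
        psum c (m (i + 1)) - psum c (m i) := by
      simp only [one_pow, mul_one]
      rw [Finset.sum_Ico_eq_sub _ (by omega)]
      rfl
    have p1 := hs i hi.le
    have p2 := hs (i + 1) hi
    have h1 : 0 < s * (-1) ^ (i + 1) * (psum c (m (i + 1)) - psum c (m i)) := by
      have e1 : s * (-1) ^ (i + 1) * (psum c (m (i + 1)) - psum c (m i)) =
        s * (-1) ^ (i + 1) * psum c (m (i + 1)) + s * (-1) ^ i * psum c (m i) := by ring
      rw [e1]; linarith
    rw [← e] at h1
    obtain ⟨j, hj, hj2⟩ := Pool.Agent.CycCrit.pick one_pos _ h1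
    rw [Finset.mem_Ico] at hj
    exact ⟨j, by omega, by omega, hj2⟩
  have key0 : ∃ j, j ≤ m 0 ∧ 0 < s * c j := by
    have h1 := hs 0 (Nat.zero_le v)
    have h2 : 0 < s * ∑ j ∈ Finset.range (m 0 + 1), c j * (1 : ℝ) ^ j := by
      simp only [one_pow, mul_one]
      rw [pow_zero, mul_one] at h1
      exact h1
    obtain ⟨j, hj, hj2⟩ := Pool.Agent.CycCrit.pick one_pos _ h2
    rw [Finset.mem_range] at hj
    exact ⟨j, by omega, hj2⟩
  choose! f hf1 hf2 hf3 using key
  obtain ⟨j0, hj0, hj0'⟩ := key0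
  let m' : ℕ → ℕ := fun i => match i with
    | 0 => j0
    | k + 1 => f k
  refine ⟨m', s, ?_, ?_⟩
  · intro i hi
    cases i with
    | zero =>
      change j0 < f 0
      exact lt_of_le_of_lt hj0 (hf1 0 hi)
    | succ k =>
      change f k < f (k + 1)
      exact lt_of_le_of_lt (hf2 k (by omega)) (hf1 (k + 1) hi)
  · intro i hi
    cases i with
    | zero =>
      change 0 < s * (-1) ^ 0 * c j0
      rw [pow_zero, mul_one]
      exact hj0'
    | succ k =>
      change 0 < s * (-1) ^ (k + 1) * c (f k)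
      exact hf3 k (by omega)

/-- The polynomial whose coefficients are the Ramanujan sums. -/
noncomputable def P (n : ℕ) : ℝ[X] :=
  ∑ d ∈ n.divisors, C ((ArithmeticFunction.moebius (n / d) : ℝ) * d) *
    ∑ j ∈ Finset.range (n / d), X ^ (d * (j + 1))

theorem cyc_ne {n : ℕ} (hn : 0 < n) {x : ℝ} (h0 : 0 < x) (h1 : x < 1) :
    (cyclotomic n ℝ).eval x ≠ 0 := by
  intro h
  have h2 := cyclotomic.dvd_X_pow_sub_one n ℝ
  obtain ⟨Q, hQ⟩ := h2
  have h3 := congrArg (eval x) hQ
  rw [eval_mul, h, zero_mul, eval_sub, eval_pow, eval_X, eval_one] at h3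
  have h4 := pow_lt_one₀ h0.le h1 hn.ne'
  linarith

/-- `x` times the logarithmic derivative. -/
noncomputable def L (n : ℕ) (x : ℝ) : ℝ := x * logDeriv (fun y => (cyclotomic n ℝ).eval y) x

theorem sum_L {x : ℝ} (h0 : 0 < x) (h1 : x < 1) (n : ℕ) (hn : 0 < n) :
    ∑ d ∈ n.divisors, L d x = n * x ^ n / (x ^ n - 1) := by
  have hprod := prod_cyclotomic_eq_X_pow_sub_one hn ℝ
  have e1 : (fun y : ℝ => ∏ d ∈ n.divisors, (cyclotomic d ℝ).eval y) = fun y => y ^ n - 1 := by
    funext y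
    have := congrArg (eval y) hprod
    rw [eval_prod, eval_sub, eval_pow, eval_X, eval_one] at this
    exact this
  have e2 : logDeriv (fun y : ℝ => ∏ d ∈ n.divisors, (cyclotomic d ℝ).eval y) x =
      ∑ d ∈ n.divisors, logDeriv (fun y => (cyclotomic d ℝ).eval y) x :=
    logDeriv_prod (s := n.divisors) (f := fun d y => (cyclotomic d ℝ).eval y) (x := x)
      (fun d hd => cyc_ne (Nat.pos_of_mem_divisors hd) h0 h1)
      (fun d _ => (cyclotomic d ℝ).differentiable x)
  unfold L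
  rw [← Finset.mul_sum, ← e2, e1]
  rw [logDeriv_apply]
  have e3 : deriv (fun y : ℝ => y ^ n - 1) x = n * x ^ (n - 1) := by
    simp
  rw [e3]
  have e4 : x ^ n = x * x ^ (n - 1) := by
    rw [← pow_succ', Nat.sub_add_cancel hn]
  rw [mul_div_assoc']
  congr 1
  rw [e4]; ring

theorem L_eq {x : ℝ} (h0 : 0 < x) (h1 : x < 1) (n : ℕ) (hn : 0 < n) :
    L n x = ∑ d ∈ n.divisors, (ArithmeticFunction.moebius (n / d) : ℝ) *
      (d * x ^ d / (x ^ d - 1)) := by
  have h := (ArithmeticFunction.sum_eq_iff_sum_mul_moebius_eq (R := ℝ) (f := fun n => L n x)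
    (g := fun n => (n : ℝ) * x ^ n / (x ^ n - 1))).1 (fun m hm => sum_L h0 h1 m hm) n hn
  rw [← h]
  rw [Nat.sum_divisorsAntidiagonal' (f := fun a b => (ArithmeticFunction.moebius a : ℝ) *
    ((b : ℝ) * x ^ b / (x ^ b - 1)))]

theorem ident_eval {n : ℕ} (hn : 0 < n) {x : ℝ} (h0 : 0 < x) (h1 : x < 1) :
    (X * derivative (cyclotomic n ℝ) * (X ^ n - 1)).eval x = (cyclotomic n ℝ * P n).eval x := by
  have hc := cyc_ne hn h0 h1
  have e := L_eq h0 h1 n hn
  have e1 : L n x = x * ((derivative (cyclotomic n ℝ)).eval x / (cyclotomic n ℝ).eval x) := by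
    unfold L
    rw [logDeriv_apply, Polynomial.deriv]
  have e2 : (P n).eval x = (x ^ n - 1) * L n x := by
    rw [e, P, eval_finsetSum, Finset.mul_sum]
    refine Finset.sum_congr rfl fun d hd => ?_
    have hd0 := Nat.pos_of_mem_divisors hd
    have hx : x ^ d - 1 ≠ 0 := by
      have := pow_lt_one₀ h0.le h1 hd0.ne'
      intro h; linarith
    rw [eval_mul, eval_C, eval_finsetSum]
    have e3 : ∑ j ∈ Finset.range (n / d), eval x ((X : ℝ[X]) ^ (d * (j + 1))) =
        x ^ d * ∑ j ∈ Finset.range (n / d), (x ^ d) ^ j := by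
      rw [Finset.mul_sum]
      refine Finset.sum_congr rfl fun j _ => ?_
      rw [eval_pow, eval_X, ← pow_mul, ← pow_add]
      congr 1
      ring
    have e4 := geom_sum_mul (x ^ d) (n / d)
    have e5 : (x ^ d) ^ (n / d) = x ^ n := by
      rw [← pow_mul, Nat.mul_div_cancel' (Nat.dvd_of_mem_divisors hd)]
    rw [e5] at e4
    rw [e3, ← e4]
    field_simp
  rw [eval_mul, eval_mul, eval_X, eval_mul, e2, e1, eval_sub, eval_pow, eval_X, eval_one]
  field_simp

theorem ident {n : ℕ} (hn : 0 < n) :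
    X * derivative (cyclotomic n ℝ) * (X ^ n - 1) = cyclotomic n ℝ * P n := by
  apply eq_of_infinite_eval_eq
  refine Set.Infinite.mono ?_ (Set.Ioo_infinite (zero_lt_one (α := ℝ)))
  intro x hx
  exact ident_eval hn hx.1 hx.2

end Pool.Agent.CYE
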