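import Pool.Agent.CYE.Cyc
import Pool.Agent.CycCrit.RootMem

/-!
# The positive critical points for lacunary divisors
-/

set_option autoImplicit false

namespace Pool.Agent.CYE

open Polynomial
open Pool.Agent.CycCrit (psum Alt)

theorem psum_succ (c : ℕ → ℝ) (n : ℕ) : psum c (n + 1) = psum c n + c (n + 1) := by
  unfold psum
  rw [Finset.sum_range_succ]

theorem psum_zero (c : ℕ → ℝ) : psum c 0 = c 0 := by
  unfold psum
  simp

theorem coeff_one (n d : ℕ) (hd : d ∈ n.divisors) (N : ℕ) :
    (∑ j ∈ Finset.range (n / d), (X : ℝ[X]) ^ (d * (j + 1))).coeff N =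
      if d ∣ N ∧ 0 < N ∧ N ≤ n then 1 else 0 := by
  have hd0 := Nat.pos_of_mem_divisors hd
  have hdn := Nat.div_mul_cancel (Nat.dvd_of_mem_divisors hd)
  rw [finsetSum_coeff]
  simp only [coeff_X_pow]
  split_ifs with h
  · obtain ⟨⟨q, hq⟩, h1, h2⟩ := h
    have hq0 : 0 < q := by
      rcases Nat.eq_zero_or_pos q with h0 | h0
      · rw [h0, mul_zero] at hq; omega
      · exact h0
    have hqn : q ≤ n / d := by
      rw [Nat.le_div_iff_mul_le hd0, mul_comm, ← hq]; exact h2
    rw [Finset.sum_eq_single (q - 1)]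
    · rw [if_pos]
      rw [Nat.sub_add_cancel hq0]; exact hq
    · intro j _ hj
      rw [if_neg]
      intro h3
      rw [hq] at h3
      have := Nat.eq_of_mul_eq_mul_left hd0 h3
      omega
    · intro h3
      exact absurd (Finset.mem_range.2 (by omega)) h3
  · refine Finset.sum_eq_zero fun j hj => ?_
    rw [if_neg]
    intro h3
    apply h
    refine ⟨⟨j + 1, h3⟩, ?_, ?_⟩
    · rw [h3]; positivity
    · rw [h3]
      have : j + 1 ≤ n / d := Finset.mem_range.1 hj
      calc d * (j + 1) ≤ d * (n / d) := Nat.mul_le_mul_left _ this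
        _ = n := by rw [mul_comm]; exact hdn

theorem psum_one (n d : ℕ) (hd : d ∈ n.divisors) (N : ℕ) :
    psum (∑ j ∈ Finset.range (n / d), (X : ℝ[X]) ^ (d * (j + 1))).coeff N =
      ((min N n / d : ℕ) : ℝ) := by
  have hd0 := Nat.pos_of_mem_divisors hd
  induction N with
  | zero =>
    rw [psum_zero, coeff_one n d hd]
    simp
  | succ N ih =>
    rw [psum_succ, ih, coeff_one n d hd]
    rcases Nat.lt_or_ge N n with h | h
    · rw [min_eq_left h.le, min_eq_left (Nat.succ_le_of_lt h), Nat.succ_div]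
      by_cases h2 : d ∣ N + 1
      · rw [if_pos ⟨h2, Nat.succ_pos _, h⟩, if_pos h2]; push_cast; ring
      · rw [if_neg (fun h3 => h2 h3.1), if_neg h2]; push_cast; ring
    · rw [min_eq_right h, min_eq_right (by omega), if_neg (by omega), add_zero]

theorem psum_sum {ι : Type} (s : Finset ι) (a : ι → ℝ) (Q : ι → ℝ[X]) (N : ℕ) :
    psum (∑ i ∈ s, C (a i) * Q i).coeff N = ∑ i ∈ s, a i * psum (Q i).coeff N := by
  unfold psum
  simp only [finsetSum_coeff, coeff_C_mul]
  rw [Finset.sum_comm]
  refine Finset.sum_congr rfl fun i _ => ?_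
  rw [Finset.mul_sum]

theorem psum_P (n N : ℕ) : psum (P n).coeff N =
    ∑ d ∈ n.divisors, ((ArithmeticFunction.moebius (n / d) : ℝ) * d) *
      ((min N n / d : ℕ) : ℝ) := by
  unfold P
  rw [psum_sum]
  refine Finset.sum_congr rfl fun d hd => ?_
  rw [psum_one n d hd]

theorem T1_map (f : ℕ → Bool) (y : ℕ) : ∀ l : List ℕ,
    T1 (l.map fun d => (d, f d)) y =
      (l.map fun d => sr (f d) * ((d : ℝ) * ((y / d : ℕ) : ℝ))).sum
  | [] => by simp [T1]
  | (a :: l) => by
      rw [List.map_cons, List.map_cons, List.sum_cons, ← T1_map f y l]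
      rfl

theorem sort_sum (s : Finset ℕ) (g : ℕ → ℝ) :
    ((s.sort (fun a b => b ≤ a)).map g).sum = ∑ d ∈ s, g d := by
  have h : (s.sort (fun a b => b ≤ a)).Nodup := Finset.sort_nodup _ _
  have h2 := List.sum_toFinset g h
  rw [Finset.sort_toFinset] at h2
  exact h2.symm

theorem sr_mu {n d : ℕ} (hn : Squarefree n) (hd : d ∣ n) :
    sr (decide (ArithmeticFunction.moebius (n / d) = 1)) =
      (ArithmeticFunction.moebius (n / d) : ℝ) := by
  have h1 : Squarefree (n / d) := hn.squarefree_of_dvd (Nat.div_dvd_of_dvd hd)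
  rcases (ArithmeticFunction.moebius_ne_zero_iff_eq_or.1
    (ArithmeticFunction.moebius_ne_zero_iff_squarefree.2 h1)) with h | h
  · rw [h]; simp [sr]
  · rw [h]; simp [sr]

theorem T1_dl {n : ℕ} (hn : Squarefree n) (y : ℕ) : T1 (dl n) y =
    ∑ d ∈ n.divisors, ((ArithmeticFunction.moebius (n / d) : ℝ) * d) * ((y / d : ℕ) : ℝ) := by
  unfold dl
  rw [T1_map (fun d => decide (ArithmeticFunction.moebius (n / d) = 1)), sort_sum]
  refine Finset.sum_congr rfl fun d hd => ?_
  rw [sr_mu hn (Nat.dvd_of_mem_divisors hd)]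
  ring

theorem T1_last {n : ℕ} (hn : Squarefree n) (h1 : 1 < n) : T1 (dl n) n = 0 := by
  rw [T1_dl hn]
  have e : ∑ d ∈ n.divisors, ((ArithmeticFunction.moebius (n / d) : ℝ) * d) *
      ((n / d : ℕ) : ℝ) = n * ∑ d ∈ n.divisors, (ArithmeticFunction.moebius (n / d) : ℝ) := by
    rw [Finset.mul_sum]
    refine Finset.sum_congr rfl fun d hd => ?_
    have : (d : ℝ) * ((n / d : ℕ) : ℝ) = n := by
      exact_mod_cast Nat.mul_div_cancel' (Nat.dvd_of_mem_divisors hd)
    rw [mul_assoc, this, mul_comm]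
  rw [e, Nat.sum_div_divisors n (fun d => (ArithmeticFunction.moebius d : ℝ))]
  have h2 : ∑ d ∈ n.divisors, ArithmeticFunction.moebius d = 0 := by
    have h3 := ArithmeticFunction.coe_zeta_mul_apply (f := ArithmeticFunction.moebius) (x := n)
    rw [ArithmeticFunction.coe_zeta_mul_moebius,
      ArithmeticFunction.one_apply_ne (by omega)] at h3
    exact h3.symm
  have h3 : ∑ d ∈ n.divisors, (ArithmeticFunction.moebius d : ℝ) = 0 := by exact_mod_cast h2
  rw [h3, mul_zero]

theorem T_map_one (f : ℕ → Bool) : ∀ l : List ℕ, (∀ d ∈ l, 0 < d) →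
    T (l.map fun d => (d, f d)) 1 = 0
  | [], _ => by simp [T]
  | (a :: l), h => by
      rw [List.map_cons]
      have h1 := T_map_one f l fun d hd => h d (List.mem_cons_of_mem _ hd)
      have ha := h a List.mem_cons_self
      change sr (f a) * K a 1 + T (l.map fun d => (d, f d)) 1 = 0
      rw [h1, K_small ha ha, mul_zero, add_zero]

theorem psum2_P {n : ℕ} (hn : Squarefree n) (h1 : 1 < n) (hL : Lac (dl n)) (N : ℕ) :
    psum (psum (P n).coeff) N = T (dl n) (min N n + 1) := by
  have hps : ∀ N, psum (P n).coeff N = T1 (dl n) (min N n) := fun N => by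
    rw [psum_P, T1_dl hn]
  induction N with
  | zero =>
    rw [psum_zero, hps]
    rw [min_eq_left (Nat.zero_le _), zero_add]
    have e1 : T (dl n) 1 = 0 := T_map_one _ _ fun d hd =>
      Nat.pos_of_mem_divisors ((Finset.mem_sort _).1 hd)
    have e2 : T (dl n) (0 + 1) - T (dl n) 0 = T1 (dl n) 0 := T_step _ hL 0
    have e3 : T1 (dl n) 0 = 0 := by
      rw [T1_dl hn]; simp
    rw [e3, e1]
  | succ N ih =>
    rw [psum_succ, ih, hps]
    rcases Nat.lt_or_ge N n with h | h
    · rw [min_eq_left h.le, min_eq_left (Nat.succ_le_of_lt h)]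
      have := T_step _ hL (N + 1)
      linarith
    · rw [min_eq_right h, min_eq_right (by omega), T1_last hn h1, add_zero]

theorem dl_ne {n : ℕ} (hn : n ≠ 0) : ∃ a l, dl n = a :: l := by
  have h : dl n ≠ [] := by
    intro h0
    have h1 : (dl n).length = n.divisors.card := by
      unfold dl
      rw [List.length_map, Finset.length_sort]
    rw [h0, List.length_nil] at h1
    have h2 := (Nat.nonempty_divisors.2 hn).card_pos
    omega
  obtain ⟨a, l, h1⟩ := List.exists_cons_of_ne_nil h
  exact ⟨a, l, h1⟩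

theorem pos_count {n : ℕ} (hn : Squarefree n) (h1 : 1 < n) (hL : Lac (dl n))
    (hd : derivative (cyclotomic n ℝ) ≠ 0) :
    (derivative (cyclotomic n ℝ)).roots.countP (fun x => 0 < x ∧ x < 1) ≤ chC (dl n) := by
  classical
  have hn0 : 0 < n := by omega
  have hid := ident hn0
  have hX : (X : ℝ[X]) ≠ 0 := X_ne_zero
  have hXn : (X ^ n - 1 : ℝ[X]) ≠ 0 := by
    simpa using X_pow_sub_C_ne_zero hn0 (1 : ℝ)
  have hleft : X * derivative (cyclotomic n ℝ) * (X ^ n - 1) ≠ 0 :=
    mul_ne_zero (mul_ne_zero hX hd) hXn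
  have hright : cyclotomic n ℝ * P n ≠ 0 := by rw [← hid]; exact hleft
  have hP : P n ≠ 0 := right_ne_zero_of_mul hright
  have hc0 : cyclotomic n ℝ ≠ 0 := left_ne_zero_of_mul hright
  have hr := congrArg roots hid
  rw [roots_mul hleft, roots_mul (mul_ne_zero hX hd), roots_mul hright] at hr
  have hcount := congrArg (Multiset.countP (fun x : ℝ => 0 < x ∧ x < 1)) hr
  rw [Multiset.countP_add, Multiset.countP_add, Multiset.countP_add] at hcount
  have z1 : Multiset.countP (fun x : ℝ => 0 < x ∧ x < 1) (X : ℝ[X]).roots = 0 := by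
    rw [roots_X, Multiset.countP_eq_zero]
    intro x hx h
    rw [Multiset.mem_singleton] at hx
    rw [hx] at h
    exact lt_irrefl _ h.1
  have z2 : Multiset.countP (fun x : ℝ => 0 < x ∧ x < 1) (X ^ n - 1 : ℝ[X]).roots = 0 := by
    rw [Multiset.countP_eq_zero]
    intro x hx h
    rw [mem_roots hXn, IsRoot, eval_sub, eval_pow, eval_X, eval_one] at hx
    have := pow_lt_one₀ h.1.le h.2 hn0.ne'
    linarith
  have z3 : Multiset.countP (fun x : ℝ => 0 < x ∧ x < 1) (cyclotomic n ℝ).roots = 0 := by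
    rw [Multiset.countP_eq_zero]
    intro x hx h
    rw [mem_roots hc0] at hx
    exact cyc_ne hn0 h.1 h.2 hx
  rw [z1, z2, z3, zero_add, add_zero, zero_add] at hcount
  rw [hcount]
  have hA := alt_psum (Pool.Agent.CycCrit.alt_of_roots (P n) hP)
  obtain ⟨a, l, hal⟩ := dl_ne hn0.ne'
  rw [hal] at hL
  obtain ⟨b, F, hb, -, hF, hcard⟩ := sign_pattern l a hL
  rw [← hal] at hb hcard hL
  refine (Pool.Agent.CycCrit.alt_le hA (fun N => b (min N n + 1)) (fun N => ?_)
    (F.image fun x => x - 1) (fun i hi => ?_)).trans (Finset.card_image_le.trans hcard)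
  · rw [psum2_P hn h1 hL]
    exact hb (min N n + 1)
  · rw [Finset.mem_image]
    rcases Nat.lt_or_ge i n with h | h
    · rw [min_eq_left h.le, min_eq_left (Nat.succ_le_of_lt h)] at hi
      exact ⟨i + 1, hF _ hi, by omega⟩
    · rw [min_eq_right h, min_eq_right (by omega)] at hi
      exact absurd rfl hi

theorem chB_add_chC : ∀ (l : List (ℕ × Bool)) (a : ℕ × Bool),
    Pool.Agent.CYE.chC (a :: l) +
      ((a :: l).zip l).countP (fun x => decide (x.1.2 ≠ x.2.2)) ≤ l.length
  | [], a => by simp [chC]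
  | (b :: l), a => by
      have h := chB_add_chC l b
      simp only [chC, List.zip_cons_cons, List.countP_cons, List.length_cons]
      by_cases h1 : a.2 = b.2
      · have : ¬ (a.2 ≠ b.2) := not_not.2 h1
        simp only [h1]
        split_ifs <;> simp_all <;> omega
      · rw [if_neg (fun h2 => h1 h2.1)]
        split_ifs <;> omega

end Pool.Agent.CYE
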