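import Pool.Agent.CYE.Base

/-!
# Sign changes of the double sums for lacunary divisors
-/

set_option autoImplicit false

namespace Pool.Agent.CYE

/-- The sign of a Boolean. -/
def sr (b : Bool) : ℝ := if b then 1 else -1

/-- Double sums of `d` at the multiples of `d`. -/
noncomputable def K (d y : ℕ) : ℝ :=
  ((y : ℝ) ^ 2 - y * d + ((y % d : ℕ) : ℝ) * (d - ((y % d : ℕ) : ℝ))) / 2

/-- The signed sum. -/
noncomputable def T : List (ℕ × Bool) → ℕ → ℝ
  | [], _ => 0
  | (a :: l), y => sr a.2 * K a.1 y + T l y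

/-- The signed sum of the first sums. -/
noncomputable def T1 : List (ℕ × Bool) → ℕ → ℝ
  | [], _ => 0
  | (a :: l), y => sr a.2 * ((a.1 : ℝ) * ((y / a.1 : ℕ) : ℝ)) + T1 l y

theorem sr_si (b : Bool) : sr b = (si b : ℝ) := by cases b <;> simp [sr, si]

theorem sr_cases (b : Bool) : sr b = 1 ∨ sr b = -1 := by cases b <;> simp [sr]

theorem dm (d y : ℕ) : (y : ℝ) = d * ((y / d : ℕ) : ℝ) + ((y % d : ℕ) : ℝ) := by
  exact_mod_cast (Nat.div_add_mod y d).symm

theorem mod_le {d : ℕ} (hd : 0 < d) (y : ℕ) : ((y % d : ℕ) : ℝ) ≤ d := by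
  exact_mod_cast (Nat.mod_lt y hd).le

theorem K_lower {d : ℕ} (hd : 0 < d) (y : ℕ) : ((y : ℝ) ^ 2 - y * d) / 2 ≤ K d y := by
  have h1 := mod_le hd y
  have h2 : (0 : ℝ) ≤ ((y % d : ℕ) : ℝ) := Nat.cast_nonneg _
  unfold K
  nlinarith [mul_nonneg h2 (sub_nonneg.2 h1)]

theorem K_upper (d y : ℕ) : K d y ≤ ((y : ℝ) ^ 2 - y * d) / 2 + (d : ℝ) ^ 2 / 8 := by
  unfold K
  nlinarith [sq_nonneg ((d : ℝ) - 2 * ((y % d : ℕ) : ℝ))]

theorem K_nonneg {d : ℕ} (y : ℕ) : 0 ≤ K d y := by
  have h := dm d y
  set q := y / d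
  have h2 : (0 : ℝ) ≤ ((y % d : ℕ) : ℝ) := Nat.cast_nonneg _
  set r : ℝ := ((y % d : ℕ) : ℝ)
  have e : K d y = ((d : ℝ) ^ 2 * ((q : ℝ) * ((q : ℝ) - 1)) + 2 * d * q * r) / 2 := by
    unfold K
    change ((y : ℝ) ^ 2 - y * d + r * (d - r)) / 2 = _
    rw [h]
    ring
  rw [e]
  have h3 : (0 : ℝ) ≤ (q : ℝ) * ((q : ℝ) - 1) := by
    rcases Nat.eq_zero_or_pos q with h0 | h0
    · rw [h0]; simp
    · have : (1 : ℝ) ≤ q := by exact_mod_cast h0
      exact mul_nonneg (by linarith) (by linarith)
  positivity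

theorem K_small {d y : ℕ} (h : y ≤ d) (hd : 0 < d) : K d y = 0 := by
  unfold K
  rcases Nat.lt_or_ge y d with h1 | h1
  · rw [Nat.mod_eq_of_lt h1]; ring
  · have : y = d := le_antisymm h h1
    subst this
    simp
    ring

theorem K_step {d : ℕ} (hd : 0 < d) (y : ℕ) :
    K d (y + 1) - K d y = d * ((y / d : ℕ) : ℝ) := by
  have h := dm d y
  have hr := Nat.mod_lt y hd
  rcases Nat.lt_or_ge (y % d + 1) d with h1 | h1
  · have e : (y + 1) % d = y % d + 1 := by
      rw [Nat.add_mod, Nat.mod_eq_of_lt (lt_of_le_of_lt (Nat.succ_le_of_lt (by omega)) h1 :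
        1 < d)]
      exact Nat.mod_eq_of_lt h1
    unfold K
    rw [e]
    push_cast
    nlinarith [h]
  · have e1 : y % d + 1 = d := by omega
    have e : (y + 1) % d = 0 := by
      have : y + 1 = d * (y / d + 1) := by
        have := Nat.div_add_mod y d
        rw [Nat.mul_add, mul_one]
        omega
      rw [this, Nat.mul_mod_right]
    have e2 : ((y % d : ℕ) : ℝ) = d - 1 := by
      have : ((y % d : ℕ) : ℝ) + 1 = d := by exact_mod_cast e1
      linarith
    unfold K
    rw [e, e2]
    rw [e2] at h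
    push_cast
    nlinarith [h]

theorem T_step : ∀ (l : List (ℕ × Bool)), Lac l → ∀ y : ℕ, T l (y + 1) - T l y = T1 l y
  | [], _, y => by simp [T, T1]
  | (a :: l), h, y => by
      have h1 := T_step l h.2 y
      have h2 := K_step h.1.1 y
      simp only [T, T1]
      rw [← h2, ← h1]
      ring

theorem T1_near : ∀ (l : List (ℕ × Bool)), Lac l → ∀ y : ℕ,
    |T1 l y - (cs l : ℝ) * y| ≤ su l
  | [], _, y => by simp [T1, cs, su]
  | (a :: l), h, y => by
      have h1 := T1_near l h.2 y
      have h2 := dm a.1 y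
      have h3 := mod_le h.1.1 y
      have h4 : (0 : ℝ) ≤ ((y % a.1 : ℕ) : ℝ) := Nat.cast_nonneg _
      have e : T1 (a :: l) y - (cs (a :: l) : ℝ) * y =
          (T1 l y - (cs l : ℝ) * y) - sr a.2 * ((y % a.1 : ℕ) : ℝ) := by
        simp only [T1, cs]
        push_cast
        rw [← sr_si]
        have : (a.1 : ℝ) * ((y / a.1 : ℕ) : ℝ) = y - ((y % a.1 : ℕ) : ℝ) := by linarith
        rw [this]
        ring
      rw [e]
      simp only [su]
      push_cast
      rw [abs_le] at h1 ⊢
      rcases sr_cases a.2 with hs | hs <;> rw [hs] <;> constructor <;> linarith [h1.1, h1.2]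

theorem T_near : ∀ (l : List (ℕ × Bool)), Lac l → ∀ y : ℕ,
    |T l y - (cs l : ℝ) * ((y : ℝ) ^ 2 / 2)| ≤ (y : ℝ) / 2 * su l + (su l : ℝ) ^ 2 / 8
  | [], _, y => by simp [T, cs, su]
  | (a :: l), h, y => by
      have h1 := T_near l h.2 y
      have h2 := K_lower h.1.1 y
      have h3 := K_upper a.1 y
      have hs0 : (0 : ℝ) ≤ su l := Nat.cast_nonneg _
      have ha0 : (0 : ℝ) ≤ a.1 := Nat.cast_nonneg _
      have hy0 : (0 : ℝ) ≤ y := Nat.cast_nonneg _
      have e : T (a :: l) y - (cs (a :: l) : ℝ) * ((y : ℝ) ^ 2 / 2) =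
          (T l y - (cs l : ℝ) * ((y : ℝ) ^ 2 / 2)) + sr a.2 * (K a.1 y - (y : ℝ) ^ 2 / 2) := by
        simp only [T, cs]
        push_cast
        rw [← sr_si]
        ring
      rw [e]
      simp only [su]
      push_cast
      have h5 : (a.1 : ℝ) ^ 2 + (su l : ℝ) ^ 2 ≤ ((a.1 : ℝ) + su l) ^ 2 := by nlinarith
      have h6 : |K a.1 y - (y : ℝ) ^ 2 / 2| ≤ (y : ℝ) / 2 * a.1 + (a.1 : ℝ) ^ 2 / 8 := by
        rw [abs_le]
        have : 0 ≤ (y : ℝ) / 2 * a.1 := by positivity
        have : 0 ≤ (a.1 : ℝ) ^ 2 / 8 := by positivity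
        constructor <;> nlinarith
      have h7 : |sr a.2 * (K a.1 y - (y : ℝ) ^ 2 / 2)| = |K a.1 y - (y : ℝ) ^ 2 / 2| := by
        rw [abs_mul]
        rcases sr_cases a.2 with hs | hs <;> rw [hs] <;> simp
      calc |(T l y - (cs l : ℝ) * ((y : ℝ) ^ 2 / 2)) + sr a.2 * (K a.1 y - (y : ℝ) ^ 2 / 2)|
          ≤ |T l y - (cs l : ℝ) * ((y : ℝ) ^ 2 / 2)| + |sr a.2 * (K a.1 y - (y : ℝ) ^ 2 / 2)| :=
            abs_add_le _ _
        _ ≤ ((y : ℝ) / 2 * su l + (su l : ℝ) ^ 2 / 8) +
            ((y : ℝ) / 2 * a.1 + (a.1 : ℝ) ^ 2 / 8) := by rw [h7]; exact add_le_add h1 h6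
        _ ≤ (y : ℝ) / 2 * (a.1 + su l) + ((a.1 : ℝ) + su l) ^ 2 / 8 := by nlinarith

/-- The sign of a sum of signs. -/
theorem sgnA {a : ℕ × Bool} {l : List (ℕ × Bool)} (h : Lac (a :: l)) (σ : Bool)
    (hc : 1 ≤ si σ * cs l) (y : ℕ) (hy : a.1 ≤ y) : 0 ≤ sr σ * T (a :: l) y := by
  have h1 := T_near l h.2 y
  have h3 := K_upper a.1 y
  have h0 := K_nonneg (d := a.1) y
  have hs0 : (0 : ℝ) ≤ su l := Nat.cast_nonneg _
  have hd : (0 : ℝ) < a.1 := by exact_mod_cast h.1.1
  have hy' : (a.1 : ℝ) ≤ y := by exact_mod_cast hy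
  have hs : 2 * (su l : ℝ) ≤ a.1 := by exact_mod_cast h.1.2
  have hc' : (1 : ℝ) ≤ sr σ * (cs l : ℝ) := by
    rw [sr_si]; exact_mod_cast hc
  have h4 : sr σ * T l y ≥ (y : ℝ) ^ 2 / 2 - ((y : ℝ) / 2 * su l + (su l : ℝ) ^ 2 / 8) := by
    have h5 : sr σ * (T l y - (cs l : ℝ) * ((y : ℝ) ^ 2 / 2)) ≥
        -((y : ℝ) / 2 * su l + (su l : ℝ) ^ 2 / 8) := by
      rw [abs_le] at h1
      rcases sr_cases σ with h | h <;> rw [h] <;> linarith [h1.1, h1.2]
    have h6 : sr σ * (cs l : ℝ) * ((y : ℝ) ^ 2 / 2) ≥ 1 * ((y : ℝ) ^ 2 / 2) :=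
      mul_le_mul_of_nonneg_right hc' (by positivity)
    nlinarith
  have h7 : sr σ * (sr a.2 * K a.1 y) ≥ - (((y : ℝ) ^ 2 - y * a.1) / 2 + (a.1 : ℝ) ^ 2 / 8) := by
    rcases sr_cases σ with h | h <;> rcases sr_cases a.2 with h' | h' <;> rw [h, h'] <;> linarith
  have h8 : sr σ * T (a :: l) y = sr σ * (sr a.2 * K a.1 y) + sr σ * T l y := by
    simp only [T]; ring
  rw [h8]
  have h9 : (a.1 : ℝ) * ((a.1 : ℝ) - su l) ≤ y * ((a.1 : ℝ) - su l) :=
    mul_le_mul_of_nonneg_right hy' (by linarith)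
  nlinarith [mul_nonneg hs0 (by linarith : (0 : ℝ) ≤ a.1 - 2 * su l), mul_pos hd hd]

/-- The final sign. -/
def FS : List (ℕ × Bool) → Bool
  | [] => true
  | (a :: l) => if cs l = 0 then a.2 else decide (0 < cs l)

/-- The right sign. -/
def Sg (b : Bool) (x : ℝ) : Prop := (b = true → 0 ≤ x) ∧ (b = false → x ≤ 0)

theorem Sg_iff (b : Bool) (x : ℝ) : Sg b x ↔ 0 ≤ sr b * x := by
  cases b <;> simp [Sg, sr]

theorem si_cases (b : Bool) : si b = 1 ∨ si b = -1 := by cases b <;> simp [si]

theorem fs_A {a : ℕ × Bool} {l : List (ℕ × Bool)} (h : Lac (a :: l)) (hc : cs l ≠ 0) (y : ℕ)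
    (hy : a.1 ≤ y) : Sg (decide (0 < cs l)) (T (a :: l) y) := by
  rw [Sg_iff]
  apply sgnA h _ _ y hy
  rcases lt_or_gt_of_ne hc with h1 | h1
  · have : decide (0 < cs l) = false := by simp; omega
    rw [this]; simp only [si]; simp; omega
  · have : decide (0 < cs l) = true := by simp; omega
    rw [this]; simp only [si]; simp; omega

theorem decide_si (b : Bool) : decide (0 < si b) = b := by cases b <;> simp [si]

theorem T1_one {d : ℕ} (hd : 0 < d) {y : ℕ} (h1 : d ≤ y) (h2 : y < 2 * d) : y / d = 1 := by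
  rw [Nat.div_eq_iff hd]
  constructor <;> omega

theorem two_le {a : ℕ × Bool} {l : List (ℕ × Bool)} (h : Lac (a :: l)) (hc : cs l = 0) (y : ℕ)
    (hy : 2 * a.1 ≤ y) : 0 ≤ sr a.2 * T (a :: l) y := by
  have hd : (0 : ℝ) < a.1 := by exact_mod_cast h.1.1
  have hs : 2 * (su l : ℝ) ≤ a.1 := by exact_mod_cast h.1.2
  have hs0 : (0 : ℝ) ≤ su l := Nat.cast_nonneg _
  have hy' : 2 * (a.1 : ℝ) ≤ y := by exact_mod_cast hy
  have h1 := K_lower h.1.1 y
  have h2 := T_near l h.2 y
  rw [hc] at h2
  simp only [Int.cast_zero, zero_mul, sub_zero] at h2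
  rw [abs_le] at h2
  have h5 : sr a.2 * sr a.2 = 1 := by rcases sr_cases a.2 with h | h <;> rw [h] <;> norm_num
  have h6 : sr a.2 * T (a :: l) y = (sr a.2 * sr a.2) * K a.1 y + sr a.2 * T l y := by
    simp only [T]; ring
  rw [h6, h5, one_mul]
  have h7 : sr a.2 * T l y ≥ -((y : ℝ) / 2 * su l + (su l : ℝ) ^ 2 / 8) := by
    rcases sr_cases a.2 with h | h <;> rw [h] <;> linarith [h2.1, h2.2]
  have h8 : 2 * (a.1 : ℝ) * y ≤ y * y := mul_le_mul_of_nonneg_right hy' (by linarith)
  have h9 : 2 * (su l : ℝ) * y ≤ a.1 * y := mul_le_mul_of_nonneg_right hs (by linarith)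
  have h10 : (su l : ℝ) * su l ≤ su l * y := mul_le_mul_of_nonneg_left (by linarith) hs0
  nlinarith

theorem mono {a : ℕ × Bool} {l : List (ℕ × Bool)} (h : Lac (a :: l)) (hc : cs l = 0) (y : ℕ)
    (hy : a.1 ≤ y) (h0 : 0 ≤ sr a.2 * T (a :: l) y) : 0 ≤ sr a.2 * T (a :: l) (y + 1) := by
  have hd : (0 : ℝ) < a.1 := by exact_mod_cast h.1.1
  have hs : 2 * (su l : ℝ) ≤ a.1 := by exact_mod_cast h.1.2
  have hs0 : (0 : ℝ) ≤ su l := Nat.cast_nonneg _
  rcases Nat.lt_or_ge y (2 * a.1) with h1 | h1
  · have h2 := T_step (a :: l) h y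
    have h3 := T1_near l h.2 y
    rw [hc] at h3
    rw [abs_le] at h3
    have h4 : T1 (a :: l) y = sr a.2 * a.1 + T1 l y := by
      simp only [T1]
      rw [T1_one h.1.1 hy h1]; simp
    rw [h4] at h2
    have h5 : sr a.2 * sr a.2 = 1 := by rcases sr_cases a.2 with h | h <;> rw [h] <;> norm_num
    have h6 : T (a :: l) (y + 1) = T (a :: l) y + (sr a.2 * a.1 + T1 l y) := by linarith
    rw [h6]
    have h7 : sr a.2 * (T (a :: l) y + (sr a.2 * a.1 + T1 l y)) =
        sr a.2 * T (a :: l) y + (sr a.2 * sr a.2) * a.1 + sr a.2 * T1 l y := by ring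
    rw [h7, h5]
    simp only [Int.cast_zero, zero_mul, sub_zero] at h3
    rcases sr_cases a.2 with h | h <;> rw [h] at h0 ⊢ <;> linarith [h3.1, h3.2]
  · exact two_le h hc (y + 1) (by omega)

theorem sign_pattern : ∀ (l : List (ℕ × Bool)) (a : ℕ × Bool), Lac (a :: l) →
    ∃ (b : ℕ → Bool) (F : Finset ℕ), (∀ y, Sg (b y) (T (a :: l) y)) ∧
      (∀ y, 2 * su (a :: l) ≤ y → b y = FS (a :: l)) ∧
      (∀ i, b i ≠ b (i + 1) → i ∈ F) ∧ F.card ≤ chC (a :: l)
  | [], a, h => by
      refine ⟨fun _ => a.2, ∅, fun y => ?_, fun y _ => ?_, fun i hi => ?_, ?_⟩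
      · rw [Sg_iff]
        simp only [T, add_zero]
        have h5 : sr a.2 * sr a.2 = 1 := by
          rcases sr_cases a.2 with h | h <;> rw [h] <;> norm_num
        rw [← mul_assoc, h5, one_mul]
        exact K_nonneg y
      · simp [FS, cs]
      · exact absurd rfl hi
      · simp
  | (a' :: l), a, h => by
      obtain ⟨b', F', h1, h2, h3, h4⟩ := sign_pattern l a' h.2
      have hd := h.1.1
      have hlow : ∀ y, y < a.1 → T (a :: a' :: l) y = T (a' :: l) y := by
        intro y hy
        change sr a.2 * K a.1 y + T (a' :: l) y = _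
        rw [K_small hy.le hd, mul_zero, zero_add]
      have hbig : ∀ y, a.1 ≤ y → b' y = FS (a' :: l) := fun y hy =>
        h2 y (h.1.2.trans hy)
      by_cases hB : a.2 = a'.2 ∧ cs (a' :: l) = 0
      · obtain ⟨hB1, hB2⟩ := hB
        have hcl : cs l = - si a'.2 := by
          simp only [cs] at hB2; omega
        have hF : FS (a' :: l) = !a.2 := by
          simp only [FS]
          rw [if_neg (by rcases si_cases a'.2 with h | h <;> rw [hcl, h] <;> norm_num), hcl, hB1]
          cases a'.2 <;> simp [si]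
        have hex : ∃ y, a.1 ≤ y ∧ 0 ≤ sr a.2 * T (a :: a' :: l) y :=
          ⟨2 * a.1, by omega, two_le h hB2 _ le_rfl⟩
        classical
        obtain ⟨hy1, hy2⟩ := Nat.find_spec hex
        have hmin := fun (m : ℕ) (hm : m < Nat.find hex) => Nat.find_min hex hm
        have hle : Nat.find hex ≤ 2 * a.1 :=
          Nat.find_min' hex ⟨by omega, two_le h hB2 _ le_rfl⟩
        generalize Nat.find hex = y0 at hy1 hy2 hmin hle
        have hup : ∀ y, y0 ≤ y → 0 ≤ sr a.2 * T (a :: a' :: l) y := by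
          intro y hy
          induction y, hy using Nat.le_induction with
          | base => exact hy2
          | succ k hk ih => exact mono h hB2 k (hy1.trans hk) ih
        refine ⟨fun y => if y < y0 then b' y else a.2, insert (y0 - 1) F', fun y => ?_,
          fun y hy => ?_, fun i hi => ?_, ?_⟩
        · dsimp only
          split_ifs with hlt
          · rcases Nat.lt_or_ge y a.1 with hya | hya
            · rw [hlow y hya]; exact h1 y
            · rw [hbig y hya, hF]
              have h5 : sr a.2 * T (a :: a' :: l) y < 0 := by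
                by_contra hc
                exact hmin y hlt ⟨hya, not_lt.1 hc⟩
              rw [Sg_iff]
              cases h6 : a.2 <;> rw [h6] at h5 <;> simp [sr] at h5 ⊢ <;> linarith
          · rw [Sg_iff]
            exact hup y (not_lt.1 hlt)
        · have h5 : 2 * a.1 ≤ y := by
            have : su (a :: a' :: l) = a.1 + su (a' :: l) := rfl
            omega
          simp only [FS]
          rw [if_neg (by omega), if_pos hB2]
        · dsimp only at hi
          rw [Finset.mem_insert]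
          by_cases hi1 : i + 1 < y0
          · rw [if_pos (by omega), if_pos hi1] at hi
            exact Or.inr (h3 i hi)
          · by_cases hi2 : i < y0
            · left; omega
            · rw [if_neg hi2, if_neg (by omega)] at hi
              exact absurd rfl hi
        · have h5 : chC (a :: a' :: l) = chC (a' :: l) + 1 := by
            simp only [chC]; rw [if_pos ⟨hB1, hB2⟩]
          rw [h5]
          exact (Finset.card_insert_le _ _).trans (by omega)
      · have h5 : chC (a :: a' :: l) = chC (a' :: l) := by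
          simp only [chC]; rw [if_neg hB, add_zero]
        have hFS : FS (a :: a' :: l) = FS (a' :: l) := by
          by_cases hc : cs (a' :: l) = 0
          · have hne : a.2 ≠ a'.2 := fun h => hB ⟨h, hc⟩
            have hcl : cs l = - si a'.2 := by simp only [cs] at hc; omega
            have e1 : FS (a :: a' :: l) = a.2 := by simp only [FS]; rw [if_pos hc]
            have e2 : FS (a' :: l) = decide (0 < - si a'.2) := by
              simp only [FS]
              rw [if_neg (by rcases si_cases a'.2 with h | h <;> rw [hcl, h] <;> norm_num), hcl]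
            rw [e1, e2]
            revert hne
            cases a.2 <;> cases a'.2 <;> simp [si]
          · have e1 : FS (a :: a' :: l) = decide (0 < cs (a' :: l)) := by
              simp only [FS]; rw [if_neg hc]
            rw [e1]
            by_cases hc2 : cs l = 0
            · have e2 : FS (a' :: l) = a'.2 := by simp only [FS]; rw [if_pos hc2]
              rw [e2]
              have e3 : cs (a' :: l) = si a'.2 := by simp only [cs]; omega
              rw [e3, decide_si]
            · have e2 : FS (a' :: l) = decide (0 < cs l) := by simp only [FS]; rw [if_neg hc2]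
              rw [e2]
              have e3 : cs (a' :: l) = si a'.2 + cs l := rfl
              rw [e3] at hc ⊢
              rcases si_cases a'.2 with h | h <;> rw [h] at hc ⊢ <;>
                by_cases h6 : 0 < cs l <;> simp [h6] <;> omega
        refine ⟨b', F', fun y => ?_, fun y hy => ?_, h3, by rw [h5]; exact h4⟩
        · rcases Nat.lt_or_ge y a.1 with hya | hya
          · rw [hlow y hya]; exact h1 y
          · rw [hbig y hya, ← hFS]
            by_cases hc : cs (a' :: l) = 0
            · have hne : a.2 ≠ a'.2 := fun h => hB ⟨h, hc⟩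
              have hcl : cs l = - si a'.2 := by simp only [cs] at hc; omega
              have e1 : FS (a :: a' :: l) = a.2 := by simp only [FS]; rw [if_pos hc]
              rw [e1, Sg_iff]
              have h6 : 0 ≤ sr a.2 * T (a' :: l) y := by
                apply sgnA h.2 _ _ y
                · have := h.1.2
                  simp only [su] at this
                  omega
                · rw [hcl]
                  revert hne
                  cases a.2 <;> cases a'.2 <;> simp [si]
              have h7 : sr a.2 * sr a.2 = 1 := by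
                rcases sr_cases a.2 with h | h <;> rw [h] <;> norm_num
              have h8 : sr a.2 * T (a :: a' :: l) y =
                  (sr a.2 * sr a.2) * K a.1 y + sr a.2 * T (a' :: l) y := by
                simp only [T]; ring
              rw [h8, h7, one_mul]
              exact add_nonneg (K_nonneg y) h6
            · have e1 : FS (a :: a' :: l) = decide (0 < cs (a' :: l)) := by
                simp only [FS]; rw [if_neg hc]
              rw [e1]
              exact fs_A h hc y hya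
        · rw [hFS]
          refine h2 y (le_trans ?_ hy)
          have : su (a :: a' :: l) = a.1 + su (a' :: l) := rfl
          omega

end Pool.Agent.CYE
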